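import Pool.Agent.H97.HV.Targets5
import Pool.Agent.H7.HD.All6

/-!
Board hov (HOD(V_ γ)), row RCS: cofinal subsets of the ordinals which are singular in HOD.
-/

open Ordinal Cardinal Order Set
open _root_.HD _root_.HD.PRK _root_.HD.HV
open Pool.Agent.H14.HD.QE (DF)

universe u

namespace Pool.Agent.H13.HVZ

/-- the condition on the records -/
def Rec (p : Ordinal.{u} → Ordinal.{u}) (s : Ordinal.{u} → Ordinal.{u} → Ordinal.{u})
    (b n i : Ordinal.{u}) : Prop := i < p b ∧ n = s b i ∧ ∀ i' < i, s b i' < n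

theorem do_Rec {p : Ordinal.{u} → Ordinal.{u}} {s : Ordinal.{u} → Ordinal.{u} → Ordinal.{u}}
    (hp : DR fun a t => t = p a) (hs : DO fun w => w 2 = s (w 0) (w 1)) :
    DO fun w => Rec p s (w 0) (w 1) (w 2) := by
  have h1 : DO fun w : ℕ → Ordinal.{u} => w 2 < p (w 0) := by
    have hp1 : DF fun w : ℕ → Ordinal.{u} => p (w 0) :=
      DO.s2 (X := fun b t => t = p b) hp 1 0
    exact DF.sub (P := fun t w => w 2 < t) hp1 (DO.lt 3 0)
  have h2 : DO fun w : ℕ → Ordinal.{u} => w 1 = s (w 0) (w 2) :=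
    DO.s3 (X := fun b i n => n = s b i) hs 0 2 1
  have h3 : DO fun w : ℕ → Ordinal.{u} => ∀ i' < w 2, s (w 0) i' < w 1 := by
    refine DO.allLt (R := fun i' w => s (w 0) i' < w 1) 2 ?_
    have hs1 : DF fun w : ℕ → Ordinal.{u} => s (w 1) (w 0) :=
      DO.s3 (X := fun b i n => n = s b i) hs 2 1 0
    exact DF.sub (P := fun y w => y < w 2) hs1 (DO.lt 0 3)
  exact h1.and (h2.and h3)

/-- the statement with the order type -/
def T_RCSo : Prop := ∃ R T : Ordinal.{u} → Ordinal.{u} → Prop, DR R ∧ DR T ∧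
  ∀ b : Ordinal.{u}, SingHOD b → ∃ τ < b, (∀ τ', T b τ' ↔ τ' = τ) ∧
    (∃ g : Ordinal.{u} → Ordinal.{u}, (∀ n n', R b n → R b n' → n < n' → g n < g n') ∧
      ∀ n, R b n → g n < τ) ∧
    (∀ n, R b n → n < b) ∧ ∀ c < b, ∃ n, c ≤ n ∧ R b n

theorem pf_RCSo : T_RCSo.{u} := by
  obtain ⟨p, s, r, ⟨hpi, hp, hs, -, -⟩⟩ := All.ps.{u}
  refine ⟨fun b n => ∃ i, Rec p s b n i, fun b t => t = p b, ?_, hp, ?_⟩
  · exact DO.ex (R := fun i w => Rec p s (w 0) (w 1) i)
      (DO.s3 (X := fun b n i => Rec p s b n i) (do_Rec hp hs) 1 2 0)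
  · intro b hb
    have huniq : ∀ n n' i i', Rec p s b n i → Rec p s b n' i' → n < n' → i < i' := by
      intro n n' i i' h1 h2 hn
      rcases lt_trichotomy i i' with h | h | h
      · exact h
      · rw [h1.2.1, h2.2.1, h] at hn
        exact absurd hn (lt_irrefl _)
      · have h3 := h1.2.2 i' h
        rw [← h2.2.1] at h3
        exact absurd hn (not_lt.2 h3.le)
    refine ⟨p b, hpi.pl b hb, fun _ => Iff.rfl, ⟨fun n => sInf {i | Rec p s b n i}, ?_, ?_⟩,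
      ?_, ?_⟩
    · intro n n' ⟨i, hi⟩ ⟨i', hi'⟩ hn
      have e1 : Rec p s b n (sInf {i | Rec p s b n i}) := csInf_mem (s := {i | Rec p s b n i}) ⟨i, hi⟩
      have e2 : Rec p s b n' (sInf {i | Rec p s b n' i}) :=
        csInf_mem (s := {i | Rec p s b n' i}) ⟨i', hi'⟩
      exact huniq _ _ _ _ e1 e2 hn
    · intro n ⟨i, hi⟩
      have e1 : Rec p s b n (sInf {i | Rec p s b n i}) := csInf_mem (s := {i | Rec p s b n i}) ⟨i, hi⟩
      exact e1.1
    · rintro n ⟨i, hi, rfl, -⟩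
      exact hpi.sl b hb i hi
    · intro c hc
      have hne : {i | i < p b ∧ c ≤ s b i}.Nonempty := ⟨r b c, hpi.rl b hb c hc, hpi.sr b hb c hc⟩
      have hm := csInf_mem hne
      refine ⟨s b (sInf {i | i < p b ∧ c ≤ s b i}), hm.2, _, hm.1, rfl, fun i' hi' => ?_⟩
      by_contra hcon
      push Not at hcon
      have : sInf {i | i < p b ∧ c ≤ s b i} ≤ i' :=
        csInf_le' (s := {i | i < p b ∧ c ≤ s b i}) ⟨hi'.trans hm.1, hm.2.trans hcon⟩
      exact absurd hi' (not_lt.2 this)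

theorem pf_RCS : T_RCS.{u} := by
  obtain ⟨R, T, hR, hT, h⟩ := pf_RCSo.{u}
  refine ⟨R, T, hR, hT, fun b hb => ?_⟩
  obtain ⟨τ, hτ, h1, ⟨g, hg, hgl⟩, h3, h4⟩ := h b hb
  refine ⟨τ, hτ, h1, ?_, h3, h4⟩
  classical
  refine ⟨fun a => if h : ∃ n, R b n ∧ g n = a then h.choose else 0, fun n hn => ⟨g n, hgl n hn, ?_⟩⟩
  have hex : ∃ m, R b m ∧ g m = g n := ⟨n, hn, rfl⟩
  have hd : (if h : ∃ m, R b m ∧ g m = g n then h.choose else 0) = hex.choose := dif_pos hex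
  show (if h : ∃ m, R b m ∧ g m = g n then h.choose else 0) = n
  rw [hd]
  obtain ⟨hm1, hm2⟩ := hex.choose_spec
  rcases lt_trichotomy hex.choose n with h | h | h
  · exact absurd (hg _ _ hm1 hn h) (by rw [hm2]; exact lt_irrefl _)
  · exact h
  · exact absurd (hg _ _ hn hm1 h) (by rw [hm2]; exact lt_irrefl _)

end Pool.Agent.H13.HVZ
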